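import Mathlib

set_option autoImplicit false

namespace Pool.Agent.Results.MP_d97def_al.Density

open Pointwise Set

universe u

/-- Finitely additive probability measures on all subsets. -/
def IsMeasure {G : Type u} (m : Set G → ℝ) : Prop :=
  (∀ S, 0 ≤ m S) ∧ m univ = 1 ∧ ∀ S T, Disjoint S T → m (S ∪ T) = m S + m T

/-- There is a left invariant finitely additive probability measure. -/
def Amenable (G : Type u) [Group G] : Prop :=
  ∃ m : Set G → ℝ, IsMeasure m ∧ ∀ (g : G) (S : Set G), m (g • S) = m S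

/-- Finitely supported probability measures. -/
def Pfin (G : Type u) : Type u := {μ : G →₀ ℝ // (∀ a, 0 ≤ μ a) ∧ ∑ a ∈ μ.support, μ a = 1}

/-- The density is12. -/
noncomputable def is12 {G : Type u} [Group G] (A : Set G) : ℝ :=
  ⨅ μ : Pfin G, ⨆ y : G, ∑ a ∈ μ.1.support, (A * {y}).indicator μ.1 a

/-- Every finite partition into n nonempty cells has a cell A with P n A. -/
def HasProp (G : Type u) (P : ℕ → Set G → Prop) : Prop :=
  ∀ n : ℕ, 1 ≤ n → ∀ A : Fin n → Set G, (∀ i, (A i).Nonempty) →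
    Pairwise (fun i j => Disjoint (A i) (A j)) → ⋃ i, A i = univ → ∃ i, P n (A i)

section

variable {G : Type u} [Group G]

def act (a : G) : (Set G → ℝ) →L[ℝ] (Set G → ℝ) :=
  ContinuousLinearMap.pi fun S => ContinuousLinearMap.proj (a⁻¹ • S)

theorem act_apply (a : G) (z : Set G → ℝ) (S : Set G) : act a z S = z (a⁻¹ • S) := rfl

theorem act_mul (a b : G) (z : Set G → ℝ) : act (a * b) z = act a (act b z) := by
  funext S
  simp only [act_apply, mul_inv_rev, mul_smul]

theorem act_one (z : Set G → ℝ) : act 1 z = z := by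
  funext S
  simp only [act_apply, inv_one, one_smul]

def Good (K : Set (Set G → ℝ)) : Prop :=
  K.Nonempty ∧ IsCompact K ∧ Convex ℝ K ∧ (∀ z ∈ K, IsMeasure z) ∧ ∀ a, ∀ z ∈ K, act a z ∈ K

theorem good_all : Good {z : Set G → ℝ | IsMeasure z} := by
  classical
  refine ⟨⟨fun S => if 1 ∈ S then 1 else 0, fun S => by positivity, by simp, fun S T h => ?_⟩, ?_,
    ?_, fun _ h => h, fun a z h => ⟨fun S => h.1 _, by simpa [act_apply] using h.2.1,
      fun S T k => ?_⟩⟩
  · have : 1 ∈ S → 1 ∉ T := fun k => Set.disjoint_left.mp h k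
    by_cases h1 : 1 ∈ S <;> by_cases h2 : 1 ∈ T <;> simp_all
  · refine (isCompact_univ_pi fun _ : Set G => isCompact_Icc (a := (0 : ℝ)) (b := 1)).of_isClosed_subset
      ?_ fun z h S _ => ⟨h.1 S, ?_⟩
    · simp only [IsMeasure, ofPred_and, ofPred_forall]
      exact (isClosed_iInter fun S => isClosed_le continuous_const (continuous_apply S)).inter
        ((isClosed_eq (continuous_apply _) continuous_const).inter
          (isClosed_iInter fun S => isClosed_iInter fun T => isClosed_iInter fun _ =>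
            isClosed_eq (continuous_apply _) ((continuous_apply S).add (continuous_apply T))))
    · have := h.2.2 S Sᶜ disjoint_compl_right
      rw [union_compl_self, h.2.1] at this
      linarith [h.1 Sᶜ]
  · intro x hx y hy a b ha hb hab
    refine ⟨fun S => add_nonneg (mul_nonneg ha (hx.1 S)) (mul_nonneg hb (hy.1 S)), ?_,
      fun S T k => ?_⟩
    · simp [hx.2.1, hy.2.1, hab]
    · simp only [Pi.add_apply, Pi.smul_apply, smul_eq_mul, hx.2.2 S T k, hy.2.2 S T k]
      ring
  · simp only [act_apply, smul_set_union]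
    exact h.2.2 _ _ (disjoint_smul_set.mpr k)

theorem ex_min : ∃ K : Set (Set G → ℝ), Minimal Good K := by
  obtain ⟨K, -, hK⟩ := zorn_superset_nonempty {K : Set (Set G → ℝ) | Good K}
    (fun c hc h1 h2 => by
      obtain ⟨K0, h0⟩ := h2
      have : Nonempty c := ⟨⟨K0, h0⟩⟩
      refine ⟨⋂₀ c, ⟨?_, ?_, convex_sInter fun K hK => (hc hK).2.2.1,
        fun z hz => (hc h0).2.2.2.1 z (hz K0 h0), fun a z hz K hK => (hc hK).2.2.2.2 a z (hz K hK)⟩,
        fun K hK => sInter_subset_of_mem hK⟩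
      · exact IsCompact.nonempty_sInter_of_directed_nonempty_isCompact_isClosed
          (fun x hx y hy => (h1.total hx hy).elim (fun k => ⟨x, hx, le_rfl, k⟩) fun k => ⟨y, hy, k, le_rfl⟩)
           (fun K hK => (hc hK).1) (fun K hK => (hc hK).2.1)
          fun K hK => (hc hK).2.1.isClosed
      · exact (hc h0).2.1.of_isClosed_subset (isClosed_sInter fun K hK => (hc hK).2.1.isClosed)
          (sInter_subset_of_mem h0)) _ good_all
  exact ⟨K, hK⟩

theorem key {K : Set (Set G → ℝ)} (hK : Minimal Good K) (L : (Set G → ℝ) →L[ℝ] ℝ)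
    {z0 : Set G → ℝ} (h0 : z0 ∈ K) (t : ℝ) (ht : L z0 < t) :
    ∃ μ : Pfin G, ∀ z ∈ K, ∑ a ∈ μ.1.support, μ.1 a * L (act a z) < t := by
  classical
  obtain ⟨k1, k2, k3, k4, k5⟩ := hK.prop
  have hc : ∀ a : G, IsClosed {z | t ≤ L (act a z)} := fun a =>
    isClosed_le continuous_const (L.continuous.comp (act a).continuous)
  have h1 : K ∩ ⋂ a : G, {z | t ≤ L (act a z)} = ∅ := by
    by_contra hn
    have := hK.le_of_le (y := K ∩ ⋂ a : G, {z | t ≤ L (act a z)})
      ⟨nonempty_iff_ne_empty.mpr hn, k2.inter_right (isClosed_iInter hc),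
        k3.inter (convex_iInter fun a =>
          convex_halfSpace_ge (L.comp (act a)).toLinearMap.isLinear t),
        fun z hz => k4 z hz.1, fun a z hz => ⟨k5 a z hz.1, mem_iInter.mpr fun b => by
          have := mem_iInter.mp hz.2 (b * a)
          rwa [mem_ofPred_eq, act_mul] at this⟩⟩ inter_subset_left
    have h2 := mem_iInter.mp (this h0).2 1
    rw [mem_ofPred_eq, act_one] at h2
    exact absurd ht (not_lt.mpr h2)
  obtain ⟨s, hs⟩ := k2.elim_finite_subfamily_closed _ hc h1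
  obtain ⟨M, hM⟩ : ∃ M : (s → ℝ) → (Set G → ℝ) →L[ℝ] ℝ,
      ∀ w z, M w z = -∑ a : s, w a * L (act (a : G) z) :=
    ⟨fun w => -∑ a : s, w a • L.comp (act (a : G)), fun w z => by simp⟩
  obtain ⟨N, hN⟩ : ∃ N : (Set G → ℝ) → (s → ℝ) →L[ℝ] ℝ, ∀ z w, N z w = M w z :=
    ⟨fun z => -∑ a : s, L (act (a : G) z) • ContinuousLinearMap.proj a, fun z w => by
      simp [hM, mul_comm]⟩
  obtain ⟨w, hw, h2⟩ := Sion.exists_lt_iInf_of_lt_iInf_of_finite (X := K) (Y := stdSimplex ℝ s)
    (f := fun z w => M w z) k1 k2 (fun w _ => (M w).continuous.lowerSemicontinuous.lowerSemicontinuousOn _)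
    (fun w _ => ((M w).toLinearMap.convexOn k3).quasiconvexOn) (convex_stdSimplex ℝ s)
    (fun z _ => by
      simp only [← hN]
      exact (N z).continuous.upperSemicontinuous.upperSemicontinuousOn _)
    (fun z _ => by
      simp only [← hN]
      exact ((N z).toLinearMap.concaveOn (convex_stdSimplex ℝ s)).quasiconcaveOn) k3
    (s := range fun a : s => Pi.single a 1) (finite_range _)
    (by rintro _ ⟨a, rfl⟩; exact single_mem_stdSimplex ℝ a) (t := -t) fun z hz => by
      have := Set.disjoint_left.mp (disjoint_iff_inter_eq_empty.mpr hs) hz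
      simp only [mem_iInter, mem_ofPred_eq, not_forall, not_le] at this
      obtain ⟨a, ha, h3⟩ := this
      refine ⟨_, ⟨⟨a, ha⟩, rfl⟩, ?_⟩
      simpa [hM, Pi.single_apply] using h3
  obtain ⟨μ, hμ⟩ : ∃ μ : G →₀ ℝ, ∀ F : G → ℝ, ∑ a ∈ μ.support, μ a * F a = ∑ a : s, w a * F a := by
    refine ⟨∑ a : s, Finsupp.single a (w a), fun F => ?_⟩
    have := map_sum (Finsupp.linearCombination ℝ F) (fun a : s => Finsupp.single (a : G) (w a))
      Finset.univ
    simp only [Finsupp.linearCombination_single, smul_eq_mul] at this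
    exact this
  refine ⟨⟨μ, fun a => ?_, ?_⟩, fun z hz => ?_⟩
  · have := hμ (Pi.single a 1)
    rw [Finset.sum_eq_single a (fun b _ hb => by simp [hb]) (fun h => by simpa using h)] at this
    simp only [Pi.single_eq_same, mul_one] at this
    rw [this]
    exact Finset.sum_nonneg fun b _ => mul_nonneg (hw.1 b) (by simp [Pi.single_apply]; positivity)
  · simpa only [Pi.one_apply, mul_one, hw.2] using hμ 1
  · have := h2 z hz
    rw [hM] at this
    rw [hμ fun a => L (act a z)]
    exact neg_lt_neg_iff.mp this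

theorem ind_nonneg (μ : Pfin G) (B : Set G) : 0 ≤ ∑ a ∈ μ.1.support, B.indicator μ.1 a :=
  Finset.sum_nonneg fun a _ => indicator_nonneg (fun b _ => μ.2.1 b) a

theorem null {K : Set (Set G → ℝ)} (hK : Minimal Good K) (L : (Set G → ℝ) →L[ℝ] ℝ)
    {z0 x0 : Set G → ℝ} (h0 : z0 ∈ K) (h1 : x0 ∈ K) (h2 : ∀ z ∈ K, L z0 ≤ L z) (d : ℝ) (hd : 0 < d)
    (A : Set G) (hA : ∀ g ∈ A, L z0 + d ≤ L (act g x0)) : is12 A = 0 := by
  have nn : ∀ μ : Pfin G, 0 ≤ ⨆ y : G, ∑ a ∈ μ.1.support, (A * {y}).indicator μ.1 a := fun μ =>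
    Real.iSup_nonneg fun y => ind_nonneg μ _
  refine le_antisymm (le_of_forall_pos_le_add fun ε hε => ?_) (Real.iInf_nonneg nn)
  obtain ⟨μ, hμ⟩ := key hK L h0 (L z0 + d * ε) (by nlinarith)
  refine (ciInf_le ⟨0, by rintro _ ⟨μ, rfl⟩; exact nn μ⟩ μ).trans (ciSup_le fun y => ?_)
  have k1 := hK.prop.2.2.2.2 y⁻¹ x0 h1
  have k2 := hμ _ k1
  have k3 : d * ∑ a ∈ μ.1.support, (A * {y}).indicator μ.1 a + L z0 ≤
      ∑ a ∈ μ.1.support, μ.1 a * L (act a (act y⁻¹ x0)) := by
    have e : L z0 = ∑ a ∈ μ.1.support, μ.1 a * L z0 := by rw [← Finset.sum_mul, μ.2.2, one_mul]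
    rw [e, Finset.mul_sum, ← Finset.sum_add_distrib]
    refine Finset.sum_le_sum fun a _ => ?_
    have k4 := μ.2.1 a
    by_cases h : a ∈ A * {y}
    · rw [indicator_of_mem h]
      obtain ⟨g, hg, _, rfl, rfl⟩ := h
      have := hA g hg
      rw [← act_mul, mul_inv_cancel_right]
      nlinarith
    · rw [indicator_of_notMem h]
      have := h2 _ (hK.prop.2.2.2.2 a _ k1)
      nlinarith
  nlinarith

theorem is12_univ : is12 (univ : Set G) = 1 := by
  have : Nonempty (Pfin G) := ⟨⟨Finsupp.single 1 1, fun a => by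
    classical
    rw [Finsupp.single_apply]
    positivity, by simp [Finsupp.support_single]⟩⟩
  have h : ∀ (μ : Pfin G) (y : G), ∑ a ∈ μ.1.support, (univ * {y} : Set G).indicator μ.1 a = 1 :=
    fun μ y => by rw [univ_mul (singleton_nonempty y), indicator_univ, μ.2.2]
  simp only [is12, h, ciSup_const, ciInf_const]

theorem two_cells (h : ¬ Amenable G) : ∃ A : Set G, is12 A = 0 ∧ is12 Aᶜ = 0 := by
  obtain ⟨K, hK⟩ := ex_min (G := G)
  obtain ⟨⟨x0, h0⟩, k2, -, k4, k5⟩ := hK.prop
  obtain ⟨g, S, hS⟩ : ∃ (g : G) (S : Set G), x0 (g • S) ≠ x0 S := by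
    by_contra hn
    push Not at hn
    exact h ⟨x0, k4 x0 h0, hn⟩
  obtain ⟨p, p1, p2⟩ := k2.exists_isMinOn ⟨x0, h0⟩ (continuous_apply S).continuousOn
  obtain ⟨q, q1, q2⟩ := k2.exists_isMaxOn ⟨x0, h0⟩ (continuous_apply S).continuousOn
  have hpq : p S < q S := by
    have e1 : p S ≤ x0 S := p2 h0
    have e2 : x0 S ≤ q S := q2 h0
    have e3 : p S ≤ act g⁻¹ x0 S := p2 (k5 _ _ h0)
    have e4 : act g⁻¹ x0 S ≤ q S := q2 (k5 _ _ h0)
    rw [act_apply, inv_inv] at e3 e4
    by_contra hn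
    exact hS (by linarith)
  refine ⟨{a | (p S + q S) / 2 ≤ act a x0 S},
    null hK (ContinuousLinearMap.proj S) p1 h0 (fun z hz => p2 hz) ((q S - p S) / 2) (by linarith) _
      fun a ha => ?_,
    null hK (-ContinuousLinearMap.proj S) q1 h0 (fun z hz => neg_le_neg (q2 hz)) ((q S - p S) / 2)
      (by linarith) _ fun a ha => ?_⟩
  · change p S + _ ≤ act a x0 S
    linarith [show (p S + q S) / 2 ≤ act a x0 S from ha]
  · change -q S + _ ≤ -act a x0 S
    linarith [not_le.mp (show ¬ (p S + q S) / 2 ≤ act a x0 S from ha)]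

end

theorem result (G : Type u) [Group G] :
    (¬ Amenable G → ∃ A : Set G, is12 A = 0 ∧ is12 Aᶜ = 0) ∧
    (HasProp G (fun n A => 1 / (n : ℝ) ≤ is12 A) → Amenable G) ∧
    (HasProp G (fun _ A => 0 < is12 A) → Amenable G) := by
  have h : HasProp G (fun _ A => 0 < is12 A) → Amenable G := fun h => by
    by_contra hn
    obtain ⟨A, h1, h2⟩ := two_cells hn
    have e1 : A.Nonempty := nonempty_iff_ne_empty.mpr (by
      rintro rfl
      rw [compl_empty, is12_univ] at h2
      exact one_ne_zero h2)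
    have e2 : Aᶜ.Nonempty := nonempty_compl.mpr (by
      rintro rfl
      rw [is12_univ] at h1
      exact one_ne_zero h1)
    obtain ⟨i, hi⟩ := h 2 one_le_two ![A, Aᶜ] (fun i => by fin_cases i <;> assumption)
      (fun i j k => by
        fin_cases i <;> fin_cases j <;> simp_all [disjoint_compl_right, disjoint_compl_left])
      (by ext x; simp [Fin.exists_fin_two, em])
    fin_cases i <;> simp_all
  refine ⟨two_cells, fun k => h fun n hn A a1 a2 a3 => ?_, h⟩
  obtain ⟨i, hi⟩ := k n hn A a1 a2 a3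
  exact ⟨i, lt_of_lt_of_le (by positivity) hi⟩

end Pool.Agent.Results.MP_d97def_al.Density
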